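import Pool.Agent.helper17.EXT.SpecJ
import Pool.Agent.helper16.EXT.B57

/-!
# Project EXT (MP_561ff4_al), row ftj:J57
-/

set_option autoImplicit false

open Finset

namespace Pool.Agent.EXT

open Pool.Agent.EXC

theorem J57 (hB0A : B0A_stmt) (hB0N : B0N_stmt) (hB0P : B0P_stmt) (hJYC : JYC_stmt) (hJMQ : JMQ_stmt) (hSGR : SGR_stmt) (hGFX : GFX_stmt) (hGRQ : GRQ_stmt) (hFXF : FXF_stmt) : J57_stmt := by
  intro K _ _ φ x hx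
  have hτ : ∀ u : K, RingEquiv.refl K (RingEquiv.refl K u) = u := fun _ => rfl
  obtain ⟨t, f₀, y, hyS, hyM, hy⟩ := hJYC K φ x hx
  obtain ⟨p1, p2, p3, -⟩ := hB0P
  obtain ⟨-, -, -, q5, q5', q7, q7'⟩ := hJMQ
  obtain ⟨hs1, hs2, -⟩ := hSGR K (RingEquiv.refl K) hτ
  obtain ⟨n0, hn0, hx0⟩ := hs2 (-sr 3) 1 (by unfold LR; decide +kernel) (map_one _)
  obtain ⟨n1, hn1, hx1⟩ := hs1 (-sr 2) 1 (by unfold SR; decide +kernel)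
  obtain ⟨n2, hn2, hx2⟩ := hs1 (-sr 0) 1 (by unfold SR; decide +kernel)
  obtain ⟨z2, hz2, hx3⟩ := hs1 (sr 0) 1 (by unfold SR; decide +kernel)
  have m0 : Mq φ n0 (LN 0) := (hB0A K φ n0).2.1 hx0
  have m1 : Mq φ n1 (LN 1) := (hB0A K φ n1).2.2.2.1 hx1
  have m2 : Mq φ n2 (LN 2) := (hB0A K φ n2).2.2.2.2.2.1 hx2
  have m3 : Mq φ z2 (LP 2) := (hB0A K φ z2).2.2.2.2.1 hx3
  have hmul : ∀ (g g' : Lm C6 K ≃ₗ[K] Lm C6 K) (P P' : Matrix (Fin 6) (Fin 6) (ZMod 2)), Mq φ g P → Mq φ g' P' → Mq φ (g * g') (P * P') :=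
    fun g g' P P' h h' => (hB0A K φ g).2.2.2.2.2.2.1 g' P P' h h'
  have hinv : ∀ (g : Lm C6 K ≃ₗ[K] Lm C6 K) (P P' : Matrix (Fin 6) (Fin 6) (ZMod 2)), P * P' = 1 → Mq φ g P → Mq φ g⁻¹ P' :=
    fun g P P' h h' => (hB0A K φ g).2.2.2.2.2.2.2.1 P P' h h'
  have i0 : Mq φ n0⁻¹ (LN 0) := hinv _ (LN 0) _ (p3 0) m0
  have i1 : Mq φ n1⁻¹ (LN 1) := hinv _ (LN 1) _ (p3 1) m1
  have i2 : Mq φ n2⁻¹ (LN 2) := hinv _ (LN 2) _ (p3 2) m2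
  have i3 : Mq φ z2⁻¹ (LP 2) := hinv _ (LP 2) _ (p2 2) m3
  constructor
  · refine B57_core hB0A hB0N hGFX hGRQ hFXF K φ x t f₀ y hy 5 2 (by norm_num) (by norm_num) ![1, n0 * n1 * n0 * n1] ?_
      (P0 * P0 * ((LN 0 * LN 1 * LN 0 * LN 1) * (P0 * P0) * (LN 1 * LN 0 * LN 1 * LN 0))) ?_ q5 q5'
    · intro i
      fin_cases i
      · exact one_mem _
      · exact mul_mem (mul_mem (mul_mem hn0 hn1) hn0) hn1
    · have e : (List.ofFn fun i : Fin 2 => (![1, n0 * n1 * n0 * n1] : Fin 2 → (Lm C6 K ≃ₗ[K] Lm C6 K)) i * y *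
          ((![1, n0 * n1 * n0 * n1] : Fin 2 → (Lm C6 K ≃ₗ[K] Lm C6 K)) i)⁻¹).prod =
          y * ((n0 * n1 * n0 * n1) * y * (n1⁻¹ * n0⁻¹ * n1⁻¹ * n0⁻¹)) := by
        simp only [List.ofFn_succ, List.ofFn_zero, List.prod_cons, List.prod_nil, Matrix.cons_val_zero, Matrix.cons_val_succ, one_mul, inv_one,
          mul_one, mul_inv_rev, mul_assoc]
      rw [e]
      exact hmul _ _ _ _ hyM (hmul _ _ _ _ (hmul _ _ _ _ (hmul _ _ _ _ (hmul _ _ _ _ (hmul _ _ _ _ m0 m1) m0) m1) hyM)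
        (hmul _ _ _ _ (hmul _ _ _ _ (hmul _ _ _ _ i1 i0) i1) i0))
  · refine B57_core hB0A hB0N hGFX hGRQ hFXF K φ x t f₀ y hy 7 3 (by norm_num) (by norm_num)
      ![1, n0 * n1 * n0, n0 * z2 * n2 * n1 * n0] ?_
      (P0 * P0 * ((LN 0 * LN 1 * LN 0) * (P0 * P0) * (LN 0 * LN 1 * LN 0)) *
        ((LN 0 * LP 2 * LN 2 * LN 1 * LN 0) * (P0 * P0) * (LN 0 * LN 1 * LN 2 * LP 2 * LN 0))) ?_ q7 q7'
    · intro i
      fin_cases i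
      · exact one_mem _
      · exact mul_mem (mul_mem hn0 hn1) hn0
      · exact mul_mem (mul_mem (mul_mem (mul_mem hn0 hz2) hn2) hn1) hn0
    · have e : (List.ofFn fun i : Fin 3 => (![1, n0 * n1 * n0, n0 * z2 * n2 * n1 * n0] : Fin 3 → (Lm C6 K ≃ₗ[K] Lm C6 K)) i * y *
          ((![1, n0 * n1 * n0, n0 * z2 * n2 * n1 * n0] : Fin 3 → (Lm C6 K ≃ₗ[K] Lm C6 K)) i)⁻¹).prod =
          y * ((n0 * n1 * n0) * y * (n0⁻¹ * n1⁻¹ * n0⁻¹)) * ((n0 * z2 * n2 * n1 * n0) * y * (n0⁻¹ * n1⁻¹ * n2⁻¹ * z2⁻¹ * n0⁻¹)) := by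
        simp only [List.ofFn_succ, List.ofFn_zero, List.prod_cons, List.prod_nil, Matrix.cons_val_zero, Matrix.cons_val_succ, one_mul, inv_one,
          mul_one, mul_inv_rev, mul_assoc]
      rw [e]
      exact hmul _ _ _ _ (hmul _ _ _ _ hyM (hmul _ _ _ _ (hmul _ _ _ _ (hmul _ _ _ _ (hmul _ _ _ _ m0 m1) m0) hyM)
          (hmul _ _ _ _ (hmul _ _ _ _ i0 i1) i0)))
        (hmul _ _ _ _ (hmul _ _ _ _ (hmul _ _ _ _ (hmul _ _ _ _ (hmul _ _ _ _ (hmul _ _ _ _ m0 m3) m2) m1) m0) hyM)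
          (hmul _ _ _ _ (hmul _ _ _ _ (hmul _ _ _ _ (hmul _ _ _ _ i0 i1) i2) i3) i0))

end Pool.Agent.EXT
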